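import Mathlib

/-!
# The Baum-Connes conjecture with commutative coefficients for linear Lie groups
-/

set_option autoImplicit false

namespace Pool.Agent.X264.BC

universe u

/-- Lie groups `G` (connected ones, and closed subgroups), locally compact `G`-spaces, the statement
`Iso G X`: the assembly map for `G` with coefficients `C₀(X)` is an isomorphism; connected linear Lie
groups, the groups `SL n = SL_n(ℝ)`, closed embeddings, compact, and compact metrizable `G`-spaces. -/
structure Theory where
  Grp : Type u
  Spc : Grp → Type u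
  Iso : ∀ G, Spc G → Prop
  Linear : Grp → Prop
  SL : ℕ → Grp
  Closed : Grp → Grp → Prop
  Compact : ∀ G, Spc G → Prop
  Metrizable : ∀ G, Spc G → Prop

namespace Theory

variable (T : Theory.{u})

/-- Induction: for a closed subgroup `H` of `G` and an `H`-space `Y` the assembly map for `G` and
`G ×_H Y` is an isomorphism if and only if the one for `H` and `Y` is. -/
def HasInduction : Prop := ∀ H G, T.Closed H G → ∀ Y, ∃ X, T.Iso G X ↔ T.Iso H Y

/-- A connected linear Lie group is isomorphic to a closed subgroup of `SL_n(ℝ)` for all large `n`, and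
`SL_n(ℝ)` is a connected linear Lie group for `n > 0`. -/
def HasEmbeddings : Prop :=
  (∀ G, T.Linear G → ∃ m, ∀ n, m ≤ n → T.Closed G (T.SL n)) ∧ ∀ n, 0 < n → T.Linear (T.SL n)

/-- One-point compactification: the sequence `C₀(X) → C(X⁺) → ℂ`, the known case of the coefficients
`ℂ`, exactness of `G` and the five lemma. -/
def HasCompactification : Prop :=
  ∀ G X, T.Linear G → ∃ X', T.Compact G X' ∧ (T.Iso G X' → T.Iso G X)

/-- Continuity: `C(X)` is the union of the subalgebras `C(X')`, `X'` a metrizable quotient of `X`. -/
def HasContinuity : Prop :=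
  ∀ G X, T.Linear G → T.Compact G X →
    (∀ X', T.Compact G X' → T.Metrizable G X' → T.Iso G X') → T.Iso G X

/-- The facts which are used. -/
structure IsKnown : Prop where
  induction : T.HasInduction
  embeddings : T.HasEmbeddings
  compactification : T.HasCompactification
  continuity : T.HasContinuity

variable {T}

theorem main (hT : T.IsKnown) (I : Set ℕ) (hI : I.Infinite) :
    (∀ G, T.Linear G → ∀ X, T.Iso G X) ↔
      ∀ n, n ∈ I → 0 < n → ∀ X, T.Compact (T.SL n) X → T.Metrizable (T.SL n) X →
        T.Iso (T.SL n) X := by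
  refine ⟨fun h n _ hn X _ _ => h _ (hT.embeddings.2 n hn) X, fun h G hG Y => ?_⟩
  obtain ⟨m, hm⟩ := hT.embeddings.1 G hG
  obtain ⟨n, hnI, hmn⟩ := hI.exists_gt m
  have hn : 0 < n := lt_of_le_of_lt (Nat.zero_le m) hmn
  have hlin := hT.embeddings.2 n hn
  have h1 : ∀ X, T.Iso (T.SL n) X := by
    intro X
    obtain ⟨X', hX', h2⟩ := hT.compactification _ X hlin
    exact h2 (hT.continuity _ X' hlin hX' (h n hnI hn))
  obtain ⟨X, hX⟩ := hT.induction G (T.SL n) (hm n hmn.le) Y
  exact hX.1 (h1 X)

end Theory

end Pool.Agent.X264.BC
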